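import Pool.Agent.H92.EZ.Targets
import Pool.Agent.H64.G.SPK
import Pool.Agent.H81.GT.CLS

/-!
Energy of the original wave near a Lorentz quadric (MP_ee74d2_an): local constancy on one plank.
-/

set_option autoImplicit false

namespace Pool.Agent.H1.EZ

open MeasureTheory Set FourierTransform
open scoped ENNReal NNReal RealInnerProductSpace
open Pool.Agent.H83.LS
open Pool.Agent.H83.G (Z TF Rg Cls pl Lo Bp TP wt ph ctr)
open Pool.Agent.H81.GT (tz xz zt SymE IsX Gf Ua ac Qz Yz Wz Th)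
open Pool.Agent.H92.EZ

theorem pf_EZL (ACS : Pool.Agent.H81.GT.T_ACS) (REP : Pool.Agent.H81.GT.T_REP)
    (LCN : Pool.Agent.H83.G.T_LCN) (SCL : Pool.Agent.H83.G.T_SCL) (LOA : Pool.Agent.H83.G.T_LOA)
    (LOI : Pool.Agent.H83.G.T_LOI) (CPS : Pool.Agent.H83.G.T_CPS) (WM : Pool.Agent.H83.G.T_WM) :
    T_EZL := by
  intro n N L κ a X χ hL hκ ha hX
  obtain ⟨C1, hC1⟩ := Pool.Agent.H64.G.lc_cap LCN SCL LOA LOI n N 20
  obtain ⟨C2, hC2⟩ := WM n N L 1 (by omega) zero_le_one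
  refine ⟨C1 * C2 + 1, by positivity, ?_⟩
  intro R A s η z f φ hφ hR hf hs hs1 hRs
  have hR0 : 0 < R := by linarith
  have hRs' : 1 ≤ R * s := by nlinarith
  obtain ⟨hTC, hRg, -⟩ := REP n κ R A a f X χ hκ ha hX hR hf
  obtain ⟨hs1', -, -⟩ := ACS n κ s η a hκ ha hs
  obtain ⟨hTC', hRg', hrep'⟩ := REP n κ R A (ac a η s) f X χ hκ hs1' hX hR hf
  have hcls : (fun ζ => Pool.Agent.H83.G.cp φ η s ζ * Gf X R a f ζ) =
      (fun ζ => Pool.Agent.H83.G.cp φ η s ζ * Gf X R (ac a η s) f ζ) := by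
    funext ζ
    exact Pool.Agent.H81.GT.cls_eq hκ ha hX hR hs hRs' hφ η ζ
  have hTP : TP φ η s (Gf X R a f) = TP φ η s (Gf X R (ac a η s) f) := by
    funext z
    unfold TP
    rw [hcls]
  set G := Gf X R a f with hG
  set G' := Gf X R (ac a η s) f with hG'
  have hsup : ∀ ζ, G ζ ≠ 0 → 1 / 4 ≤ ζ.1 := fun ζ hζ => by
    have := (hRg ζ hζ).1
    linarith
  have hsup' : ∀ ζ, G' ζ ≠ 0 → 1 / 4 ≤ ζ.1 ∧ ζ.1 ≤ 8 := by
    intro ζ hζ
    obtain ⟨h4, h5, -, -⟩ := hRg' ζ hζ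
    constructor <;> linarith
  have hF : Pool.Agent.H83.G.TC (fun ζ => Pool.Agent.H83.G.cp φ η s ζ * G ζ) :=
    CPS n φ η s G hφ.1 hs hTC hsup
  have h1 := hC1 (fun ζ => Pool.Agent.H83.G.cp φ η s ζ * G ζ) η s hs hF
    (Pool.Agent.H64.G.supp_cap LOA hφ.2.1 (by norm_num : (0:ℝ) ≤ 1 / 4) (by norm_num) hR0 hRg η hs
      hRs) z
  have h2 := hC2 φ hφ η η s s 1 (Lo η s z) G' hs hs le_rfl (by linarith) (by
    rw [sub_self, norm_zero]; positivity) hTC' hsup'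
  have h3 : ∫⁻ z', ‖TF (fun ζ => Pool.Agent.H83.G.cp φ η s ζ * G ζ) z'‖ₑ ^ 2 *
      ENNReal.ofReal (wt N (Lo η s z - Lo η s z')) =
      ∫⁻ z', ‖TP φ η s G' z'‖ₑ ^ 2 * ENNReal.ofReal (wt N ((1:ℝ)⁻¹ • Lo η s z' - Lo η s z)) := by
    refine lintegral_congr fun z' => ?_
    have e1 : TF (fun ζ => Pool.Agent.H83.G.cp φ η s ζ * G ζ) z' = TP φ η s G' z' := by
      rw [← hTP]
      rfl
    rw [e1, Pool.Agent.H64.G.wt_symm]
    simp only [inv_one, one_smul]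
  have h4 : ∫⁻ z', ‖TF G' z'‖ₑ ^ 2 * ENNReal.ofReal (wt N ((1:ℝ)⁻¹ • Lo η s z' - Lo η s z)) =
      ∫⁻ z', ‖Ua (ac a η s) (tz z') f (xz z') * χ (tz z' / R)‖ₑ ^ 2 *
      ENNReal.ofReal (wt N (Lo η s (z' - z))) := by
    refine lintegral_congr fun z' => ?_
    rw [hrep' z', Pool.Agent.H64.G.Lo_sub LOA]
    simp only [inv_one, one_smul]
  have h5 : TF (fun ζ => Pool.Agent.H83.G.cp φ η s ζ * G ζ) z = TP φ η s G z := rfl
  rw [h5, h3] at h1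
  rw [h4] at h2
  set J : ℝ≥0∞ := ∫⁻ z', ‖Ua (ac a η s) (tz z') f (xz z') * χ (tz z' / R)‖ₑ ^ 2 *
      ENNReal.ofReal (wt N (Lo η s (z' - z))) with hJ
  calc ‖TP φ η s G z‖ₑ ^ 2 ≤ C1 * ENNReal.ofReal (s ^ (n + 2)) * (C2 * J) :=
        h1.trans (mul_le_mul_right h2 _)
    _ = ENNReal.ofReal (C1 * C2 * s ^ (n + 2)) * J := by
        rw [ENNReal.ofReal_mul (p := (C1 : ℝ) * C2) (by positivity),
          ENNReal.ofReal_mul (p := (C1 : ℝ)) C1.2, ENNReal.ofReal_coe_nnreal,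
          ENNReal.ofReal_coe_nnreal]
        ring
    _ ≤ ENNReal.ofReal ((C1 * C2 + 1) * s ^ (n + 2)) * J := by
        refine mul_le_mul_left (ENNReal.ofReal_le_ofReal ?_) _
        have : 0 < s ^ (n + 2) := by positivity
        nlinarith

end Pool.Agent.H1.EZ
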